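import Pool.Agent.J4H60.IF.Stm

/-!
# Project IF of helper60: (P) (helper21)
-/

set_option autoImplicit false

namespace Pool.Agent.J4H21.IF

open Finset Pool.Agent.J4H60.IF

theorem t_P : S_P := by
  intro A
  have h1 : D A = (A.offDiag.filter (fun p => Disjoint p.1 p.2)).card := by
    unfold D
    congr 1
    ext ⟨X, Y⟩
    simp only [mem_filter, mem_product, mem_offDiag]
    tauto
  have h2 : (A.offDiag.filter (fun p => ¬ Disjoint p.1 p.2)).card = 2 * cnt A 2 := by
    have hmap : ∀ p ∈ A.offDiag.filter (fun p => ¬ Disjoint p.1 p.2), ({p.1, p.2} : Finset V) ∈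
        (A.powersetCard 2).filter (fun F => ∀ X ∈ F, ∀ Y ∈ F, X ≠ Y → ¬ Disjoint X Y) := by
      rintro ⟨X, Y⟩ hp
      simp only [mem_filter, mem_offDiag] at hp
      obtain ⟨⟨hX, hY, hne⟩, hd⟩ := hp
      rw [mem_filter, mem_powersetCard]
      refine ⟨⟨?_, card_pair hne⟩, ?_⟩
      · intro Z hZ
        simp only [mem_insert, mem_singleton] at hZ
        rcases hZ with rfl | rfl
        · exact hX
        · exact hY
      · intro Z hZ W hW hZW
        simp only [mem_insert, mem_singleton] at hZ hW
        rcases hZ with rfl | rfl <;> rcases hW with rfl | rfl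
        · exact absurd rfl hZW
        · exact hd
        · exact fun h => hd h.symm
        · exact absurd rfl hZW
    rw [card_eq_sum_card_fiberwise hmap]
    have hfib : ∀ F ∈ (A.powersetCard 2).filter (fun F => ∀ X ∈ F, ∀ Y ∈ F, X ≠ Y → ¬ Disjoint X Y),
        ((A.offDiag.filter (fun p => ¬ Disjoint p.1 p.2)).filter
          (fun p => ({p.1, p.2} : Finset V) = F)).card = 2 := by
      intro F hF
      rw [mem_filter, mem_powersetCard] at hF
      obtain ⟨⟨hFA, hF2⟩, hFd⟩ := hF
      obtain ⟨x, y, hxy, rfl⟩ := card_eq_two.1 hF2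
      have hx : x ∈ A := hFA (by simp)
      have hy : y ∈ A := hFA (by simp)
      have hd : ¬ Disjoint x y := hFd x (by simp) y (by simp) hxy
      have e : (A.offDiag.filter (fun p => ¬ Disjoint p.1 p.2)).filter
          (fun p => ({p.1, p.2} : Finset V) = {x, y}) = {(x, y), (y, x)} := by
        ext ⟨X, Y⟩
        simp only [mem_filter, mem_offDiag, mem_insert, mem_singleton, Prod.mk.injEq]
        constructor
        · rintro ⟨⟨⟨hX, hY, hne⟩, hd'⟩, hs⟩
          have hXm : X ∈ ({x, y} : Finset V) := by rw [← hs]; simp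
          have hYm : Y ∈ ({x, y} : Finset V) := by rw [← hs]; simp
          simp only [mem_insert, mem_singleton] at hXm hYm
          rcases hXm with rfl | rfl <;> rcases hYm with rfl | rfl
          · exact absurd rfl hne
          · exact Or.inl ⟨rfl, rfl⟩
          · exact Or.inr ⟨rfl, rfl⟩
          · exact absurd rfl hne
        · rintro (⟨rfl, rfl⟩ | ⟨rfl, rfl⟩)
          · exact ⟨⟨⟨hx, hy, hxy⟩, hd⟩, rfl⟩
          · exact ⟨⟨⟨hy, hx, hxy.symm⟩, fun h => hd h.symm⟩, pair_comm _ _⟩
      rw [e, card_pair]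
      intro h
      exact hxy (Prod.mk.inj h).1
    rw [sum_congr rfl hfib, sum_const, smul_eq_mul, mul_comm]
    rfl
  have h3 := card_filter_add_card_filter_not (s := A.offDiag) (fun p : V × V => Disjoint p.1 p.2)
  rw [h2, ← h1, offDiag_card] at h3
  rw [Nat.mul_sub_one]
  omega

end Pool.Agent.J4H21.IF
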