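import Pool.Agent.J4H60.IF.Stm

/-!
# Project IF of helper60: (X) (helper21)
-/

set_option autoImplicit false

namespace Pool.Agent.J4H21.IF

open Finset Pool.Agent.J4H60.IF

/-- the star of `0` -/
def st : Finset V := {{0, 1, 2}, {0, 1, 3}, {0, 1, 4}, {0, 1, 5}, {0, 1, 6}, {0, 2, 3}, {0, 2, 4},
  {0, 2, 5}, {0, 2, 6}, {0, 3, 4}, {0, 3, 5}, {0, 3, 6}, {0, 4, 5}, {0, 4, 6}, {0, 5, 6}}

/-- the five other triples -/
def tt : Fin 5 → V := ![{1, 2, 3}, {1, 2, 4}, {1, 2, 5}, {1, 2, 6}, {1, 3, 4}]

theorem st0 : ∀ X ∈ st, (0 : Fin 7) ∈ X := by decide +kernel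
theorem tt0 : ∀ i, (0 : Fin 7) ∉ tt i := by decide +kernel
theorem tt1 : ∀ i, (1 : Fin 7) ∈ tt i := by decide +kernel
theorem tti : Function.Injective tt := by decide +kernel
theorem st3 : ∀ X ∈ st, X.card = 3 := by decide +kernel
theorem tt3 : ∀ i, (tt i).card = 3 := by decide +kernel
theorem stc : st.card = 15 := by decide +kernel

/-- the star members which meet all `tt i`, `i ∈ J` -/
def sj (J : Finset (Fin 5)) : Finset V := st.filter (fun S => ∀ i ∈ J, ¬ Disjoint S (tt i))

theorem num : 59050 ≤ ∑ J : Finset (Fin 5), 2 ^ (sj J).card := by decide +kernel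

theorem t_X : S_X := by
  refine ⟨st ∪ univ.image tt, ?_, ?_, ?_⟩
  · intro X hX
    rw [mem_union, mem_image] at hX
    rcases hX with hX | ⟨i, -, rfl⟩
    · exact st3 X hX
    · exact tt3 i
  · rw [card_union_of_disjoint, stc, card_image_of_injective _ tti, card_univ, Fintype.card_fin]
    rw [disjoint_left]
    intro X hX hX'
    rw [mem_image] at hX'
    obtain ⟨i, -, rfl⟩ := hX'
    exact tt0 i (st0 _ hX)
  · refine num.trans ?_
    have h1 : ∑ J : Finset (Fin 5), 2 ^ (sj J).card =
        ((univ : Finset (Finset (Fin 5))).sigma (fun J => (sj J).powerset)).card := by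
      rw [card_sigma]
      exact sum_congr rfl fun J _ => (card_powerset _).symm
    rw [h1]
    unfold ind
    apply card_le_card_of_injOn (fun p => p.2 ∪ p.1.image tt)
    · rintro ⟨J, S⟩ hp
      rw [mem_coe, mem_sigma, mem_powerset] at hp
      have hS : S ⊆ sj J := hp.2
      have hSst : S ⊆ st := hS.trans (filter_subset _ _)
      rw [mem_coe, mem_filter, mem_powerset]
      refine ⟨union_subset_union hSst (image_subset_image (subset_univ J)), ?_⟩
      intro X hX Y hY _ hd
      simp only [mem_union, mem_image] at hX hY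
      rcases hX with hX | ⟨i, hi, rfl⟩ <;> rcases hY with hY | ⟨j, hj, rfl⟩
      · exact disjoint_left.1 hd (st0 _ (hSst hX)) (st0 _ (hSst hY))
      · exact (mem_filter.1 (hS hX)).2 j hj hd
      · exact (mem_filter.1 (hS hY)).2 i hi hd.symm
      · exact disjoint_left.1 hd (tt1 i) (tt1 j)
    · rintro ⟨J, S⟩ hp ⟨J', S'⟩ hp' h
      rw [mem_coe, mem_sigma, mem_powerset] at hp hp'
      have hS : S ⊆ st := (show S ⊆ sj J from hp.2).trans (filter_subset _ _)
      have hS' : S' ⊆ st := (show S' ⊆ sj J' from hp'.2).trans (filter_subset _ _)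
      have h' : S ∪ J.image tt = S' ∪ J'.image tt := h
      have hmem : ∀ (S : Finset V) (J : Finset (Fin 5)), S ⊆ st → ∀ i, tt i ∈ S ∪ J.image tt ↔ i ∈ J := by
        intro S J hS i
        rw [mem_union, mem_image]
        constructor
        · rintro (h1 | ⟨j, hj, hij⟩)
          · exact absurd (st0 _ (hS h1)) (tt0 i)
          · rwa [← tti hij]
        · exact fun hi => Or.inr ⟨i, hi, rfl⟩
      have hmem2 : ∀ (S : Finset V) (J : Finset (Fin 5)) (X : V), 0 ∈ X → (X ∈ S ∪ J.image tt ↔ X ∈ S) := by
        intro S J X hX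
        rw [mem_union, mem_image]
        constructor
        · rintro (h1 | ⟨j, -, rfl⟩)
          · exact h1
          · exact absurd hX (tt0 j)
        · exact Or.inl
      have hJ : J = J' := by
        ext i
        rw [← hmem S J hS i, ← hmem S' J' hS' i, h']
      have hSS : S = S' := by
        ext X
        constructor
        · intro hX
          have h0 := st0 _ (hS hX)
          rw [← hmem2 S' J' X h0, ← h', hmem2 S J X h0]
          exact hX
        · intro hX
          have h0 := st0 _ (hS' hX)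
          rw [← hmem2 S J X h0, h', hmem2 S' J' X h0]
          exact hX
      subst hJ hSS
      rfl

end Pool.Agent.J4H21.IF
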